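import Pool.Agent.Helper22.TL.Spec

/-!
# TL, part GEN (helper23): generic points
-/

set_option autoImplicit false

namespace TL

open Set

theorem gen_span_dir {d k : ℕ} (A : AffineSubspace ℝ (E d)) (p : E d)
    (h : Module.finrank ℝ A.direction + (k + 1) ≤ d) :
    Module.finrank ℝ (affineSpan ℝ (insert p (A : Set (E d)))).direction + k ≤ d := by
  rw [direction_affineSpan]
  have := finrank_vectorSpan_insert_le A p
  omega

theorem gen_thm (hC : S_CELL) (hK : S_CONN) : S_GEN := by
  classical
  intro d Fl V X hd Φ₀ o ho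
  obtain ⟨-, hmem, hint, hcl, hne, -, -, hnear, -, hskel, hcover⟩ := hC d Fl V X
  have ho3 : o ∉ X.skel 3 := by
    rintro ⟨Ψ, b, hb0, hb1, hb2, hb3⟩
    obtain ⟨a, ha0, ha1, ha2⟩ := (hint Φ₀ o).mp ho
    have h := (X.t3 Φ₀ Ψ a b (fun i => (ha0 i).le) hb0 ha1 hb1 (ha2.symm.trans hb2)).1
    have : (Finset.univ.filter fun i => b i = 0) = ∅ := by
      rw [Finset.filter_eq_empty_iff]
      intro i _
      rw [← h]
      exact (ha0 i).ne'
    rw [this] at hb3
    simp at hb3
  set N : Set (E d) := {x | Disjoint (segment ℝ o x) (X.skel 3)} with hN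
  -- openness
  have hopen : IsOpen N := by
    rw [Metric.isOpen_iff]
    intro x hx
    have hcpt : IsCompact (segment ℝ o x) := by
      rw [segment_eq_image_lineMap]
      exact isCompact_Icc.image (AffineMap.lineMap_continuous)
    obtain ⟨δ, hδ, hth⟩ := hcpt.exists_thickening_subset_open (hskel 3).isOpen_compl
      (Set.disjoint_left.mp hx)
    refine ⟨δ, hδ, fun y hy => ?_⟩
    show Disjoint (segment ℝ o y) (X.skel 3)
    rw [Set.disjoint_left]
    intro z hz
    apply hth
    rw [Metric.mem_thickening_iff]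
    rw [segment_eq_image_lineMap] at hz
    obtain ⟨t, ht, rfl⟩ := hz
    refine ⟨AffineMap.lineMap o x t, ?_, ?_⟩
    · rw [segment_eq_image_lineMap]
      exact ⟨t, ht, rfl⟩
    · have h1 : (AffineMap.lineMap o y t : E d) - AffineMap.lineMap o x t = t • (y - x) := by
        simp only [AffineMap.lineMap_apply_module]
        module
      rw [dist_eq_norm, h1, norm_smul, Real.norm_eq_abs, abs_of_nonneg ht.1]
      have h2 : ‖y - x‖ < δ := by
        rw [← dist_eq_norm]
        exact Metric.mem_ball.mp hy
      have h3 : t * ‖y - x‖ ≤ 1 * ‖y - x‖ := mul_le_mul_of_nonneg_right ht.2 (norm_nonneg _)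
      linarith
  obtain ⟨ι, A, hι, hA, hsub⟩ := hcover 3
  let A' : ι → AffineSubspace ℝ (E d) := fun n => affineSpan ℝ (insert o (A n : Set (E d)))
  have hA' : ∀ n, Module.finrank ℝ (A' n).direction + 2 ≤ d := fun n => gen_span_dir (A n) o (hA n)
  have hoA' : ∀ n, o ∈ A' n := fun n => subset_affineSpan ℝ _ (Set.mem_insert _ _)
  have hAA' : ∀ n, ∀ x ∈ A n, x ∈ A' n := fun n x hx =>
    subset_affineSpan ℝ _ (Set.mem_insert_of_mem _ hx)
  have hvis : ∀ x, x ∉ ⋃ n, (A' n : Set (E d)) → x ∈ N := by
    intro x hx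
    show Disjoint (segment ℝ o x) (X.skel 3)
    rw [Set.disjoint_left]
    intro y hy hy3
    obtain ⟨n, hn⟩ := Set.mem_iUnion.mp (hsub hy3)
    apply hx
    rw [Set.mem_iUnion]
    refine ⟨n, ?_⟩
    rw [segment_eq_image_lineMap] at hy
    obtain ⟨t, ht, rfl⟩ := hy
    have ht0 : t ≠ 0 := by
      rintro rfl
      rw [AffineMap.lineMap_apply_zero] at hy3
      exact ho3 hy3
    have h1 : x = AffineMap.lineMap o (AffineMap.lineMap o x t : E d) t⁻¹ := by
      simp only [AffineMap.lineMap_apply_module, smul_add, smul_smul]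
      rw [inv_mul_cancel₀ ht0, one_smul, ← add_assoc, ← add_smul]
      have : 1 - t⁻¹ + t⁻¹ * (1 - t) = 0 := by
        field_simp
        ring
      rw [this, zero_smul, zero_add]
    rw [h1]
    exact AffineMap.lineMap_mem _ (hoA' n) (hAA' n _ hn)
  refine ⟨hopen, ?_, ?_, ?_⟩
  · rw [segment_same, Set.disjoint_singleton_left]
    exact ho3
  · intro Φ
    have hcv : Convex ℝ (interior (X.cell Φ)) := (convex_convexHull ℝ _).interior
    obtain ⟨h1, h2⟩ := hK d (interior (X.cell Φ)) ι A' hι isOpen_interior hcv hA'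
    have hsubN : interior (X.cell Φ) \ ⋃ n, (A' n : Set (E d)) ⊆ interior (X.cell Φ) ∩ N :=
      fun x hx => ⟨hx.1, hvis x hx.2⟩
    refine ⟨h1.subset_closure hsubN ?_, (h2 (hne Φ)).mono hsubN⟩
    rintro x ⟨hx, -⟩
    rw [Metric.mem_closure_iff]
    intro ε hε
    obtain ⟨ε', hε', h3⟩ := Metric.isOpen_iff.mp isOpen_interior x hx
    have hpos : 0 < min ε ε' := lt_min hε hε'
    obtain ⟨y, hy1, hy2⟩ := (hK d (Metric.ball x (min ε ε')) ι A' hι Metric.isOpen_ball
      (convex_ball _ _) hA').2 ⟨x, Metric.mem_ball_self hpos⟩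
    have hy3 := Metric.mem_ball.mp hy1
    refine ⟨y, ⟨h3 (Metric.mem_ball.mpr (lt_of_lt_of_le hy3 (min_le_right _ _))), hy2⟩, ?_⟩
    rw [dist_comm]
    exact lt_of_lt_of_le hy3 (min_le_left _ _)
  · intro Φ Ψ i hadj
    by_contra hcon
    let p : Fin (d + 1) → E d := fun j => X.pt (X.L Φ j)
    let B : ι → AffineSubspace ℝ (E d) := fun n => affineSpan ℝ (insert (p i) (A' n : Set (E d)))
    have hB : ∀ n, Module.finrank ℝ (B n).direction + 1 ≤ d := fun n =>
      gen_span_dir (A' n) (p i) (hA' n)
    have hcov2 : interior (X.cell Φ) ⊆ ⋃ n, (B n : Set (E d)) := by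
      intro x hx
      obtain ⟨a, ha0, ha1, ha2⟩ := (hint Φ x).mp hx
      have hai : 0 < 1 - a i := by
        have h1 : ∑ j, a j = a i + ∑ j ∈ Finset.univ.erase i, a j := by
          rw [Finset.add_sum_erase _ _ (Finset.mem_univ i)]
        have hne' : (Finset.univ.erase i : Finset (Fin (d + 1))).Nonempty := by
          rw [← Finset.card_pos, Finset.card_erase_of_mem (Finset.mem_univ i), Finset.card_univ,
            Fintype.card_fin]
          omega
        have h2 : 0 < ∑ j ∈ Finset.univ.erase i, a j := Finset.sum_pos (fun j _ => ha0 j) hne'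
        linarith
      -- the point of the wall
      let c : Fin (d + 1) → ℝ := fun j => if j = i then 0 else a j / (1 - a i)
      have hc0 : ∀ j, 0 ≤ c j := by
        intro j
        simp only [c]
        split_ifs
        · exact le_refl 0
        · exact (div_pos (ha0 j) hai).le
      have hc1 : ∑ j, c j = 1 := by
        rw [← Finset.add_sum_erase _ _ (Finset.mem_univ i)]
        have h1 : ∑ j ∈ Finset.univ.erase i, c j = ∑ j ∈ Finset.univ.erase i, a j / (1 - a i) := by
          refine Finset.sum_congr rfl fun j hj => ?_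
          simp only [c, if_neg (Finset.ne_of_mem_erase hj)]
        rw [h1, ← Finset.sum_div]
        have h2 : ∑ j, a j = a i + ∑ j ∈ Finset.univ.erase i, a j := by
          rw [Finset.add_sum_erase _ _ (Finset.mem_univ i)]
        have h3 : ∑ j ∈ Finset.univ.erase i, a j = 1 - a i := by linarith
        rw [h3, div_self hai.ne']
        simp [c]
      have hci : c i = 0 := by simp [c]
      set y : E d := ∑ j, c j • p j with hy
      have hyΦ : y ∈ X.cell Φ := (hmem Φ y).mpr ⟨c, hc0, hc1, rfl⟩
      have hyΨ : y ∈ X.cell Ψ := by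
        refine (hmem Ψ y).mpr ⟨c, hc0, hc1, ?_⟩
        rw [hy]
        refine Finset.sum_congr rfl fun j _ => ?_
        by_cases hj : j = i
        · subst hj
          rw [hci, zero_smul, zero_smul]
        · simp only [p, hadj.2 j hj]
      have hyA : y ∈ ⋃ n, (A' n : Set (E d)) := by
        by_contra hno
        exact hcon ⟨y, ⟨hyΦ, hyΨ⟩, hvis y hno⟩
      obtain ⟨n, hn⟩ := Set.mem_iUnion.mp hyA
      rw [Set.mem_iUnion]
      refine ⟨n, ?_⟩
      have hx2 : x = AffineMap.lineMap (p i) y (1 - a i) := by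
        rw [AffineMap.lineMap_apply_module, ha2, hy, Finset.smul_sum,
          ← Finset.add_sum_erase _ _ (Finset.mem_univ i),
          ← Finset.add_sum_erase Finset.univ (fun j => (1 - a i) • c j • p j) (Finset.mem_univ i),
          hci, zero_smul, smul_zero, zero_add]
        congr 1
        · rw [sub_sub_cancel]
        · refine Finset.sum_congr rfl fun j hj => ?_
          simp only [c, if_neg (Finset.ne_of_mem_erase hj), smul_smul, p]
          rw [mul_div_cancel₀ _ hai.ne']
      rw [hx2]
      exact AffineMap.lineMap_mem _ (subset_affineSpan ℝ _ (Set.mem_insert _ _))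
        (subset_affineSpan ℝ _ (Set.mem_insert_of_mem _ hn))
    have hnull : MeasureTheory.volume (⋃ n, (B n : Set (E d))) = 0 := by
      rw [MeasureTheory.measure_iUnion_null_iff]
      intro n
      refine MeasureTheory.Measure.addHaar_affineSubspace _ _ ?_
      intro htop
      have := hB n
      rw [htop, AffineSubspace.direction_top, finrank_top] at this
      have h2 : Module.finrank ℝ (E d) = d := by simp [E]
      omega
    have hpos := isOpen_interior.measure_pos MeasureTheory.volume (hne Φ)
    exact hpos.ne' (MeasureTheory.measure_mono_null hcov2 hnull)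

end TL
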