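import Pool.Agent.Helper22.TL.Spec

/-!
# TL, part SC (helper23): simple connectivity outside codimension three gives a global section
-/

set_option autoImplicit false

namespace TL

open Set

theorem sc_thm (hC : S_CELL) (hL : S_LOC2) (hM : S_MON) (hG : S_GEN) : S_SC := by
  classical
  intro d Fl V X hd W _ s nb hs
  obtain ⟨-, -, -, hcl, hne, -, -, hnear, -, -, -⟩ := hC d Fl V X
  obtain ⟨Φ₀, -⟩ := X.cov 0
  obtain ⟨o, ho⟩ := hne Φ₀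
  obtain ⟨hNo, hoN, hpre, hwall⟩ := hG d Fl V X hd Φ₀ o ho
  set N : Set (E d) := {x | Disjoint (segment ℝ o x) (X.skel 3)} with hN
  have hN3 : ∀ x ∈ N, x ∉ X.skel 3 := fun x hx h =>
    (Set.disjoint_left.mp hx) (right_mem_segment ℝ o x) h
  have hstar : ∀ x ∈ N, segment ℝ o x ⊆ N := by
    intro x hx y hy
    have : segment ℝ o y ⊆ segment ℝ o x :=
      (convex_segment o x).segment_subset (left_mem_segment ℝ o x) hy
    exact Set.disjoint_of_subset_left this hx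
  have hrs : ∀ (y : E d) (f : Fl → W) (Φ : Fl), y ∈ X.cell Φ → X.rs y f Φ = f Φ := by
    intro y f Φ h
    simp only [Cx.rs, if_pos h]
  have hrs1 : ∀ (y : E d) (f : Fl → W) (Φ : Fl), y ∉ X.cell Φ → X.rs y f Φ = 1 := by
    intro y f Φ h
    simp only [Cx.rs, if_neg h]
  have hmaps : ∀ (x y : E d) (f : Fl → W), (∀ Φ, y ∈ X.cell Φ → x ∈ X.cell Φ) →
      f ∈ X.Sec s nb x → X.rs y f ∈ X.Sec s nb y := by
    intro x y f hxy hf
    refine ⟨fun Φ h => hrs1 y f Φ h, fun Φ i h1 h2 => ?_⟩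
    rw [hrs y f _ h1, hrs y f _ h2]
    exact hf.2 Φ i (hxy _ h1) (hxy _ h2)
  have hbij : ∀ x ∈ N, ∃ ε > (0 : ℝ), ∀ y ∈ N, dist y x < ε →
      BijOn (X.rs y) (X.Sec s nb x) (X.Sec s nb y) := by
    intro x hx
    obtain ⟨ε, hε, h⟩ := hnear x
    refine ⟨ε, hε, fun y hy hyx => ?_⟩
    have hxy : ∀ Φ, y ∈ X.cell Φ → x ∈ X.cell Φ := fun Φ hΦ =>
      h Φ ⟨y, hΦ, Metric.mem_ball.mpr hyx⟩
    obtain ⟨Φ, hΦ⟩ := X.cov y
    have hΦ' : y ∈ X.cell Φ := hΦ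
    refine ⟨fun f hf => hmaps x y f hxy hf, ?_, ?_⟩
    · intro f hf g hg hfg
      obtain ⟨k, -, hk⟩ := hL d Fl V X hd W s nb hs x (hN3 x hx) Φ (hxy Φ hΦ') (f Φ)
      have h1 := hk f ⟨hf, rfl⟩
      have h2 := hk g ⟨hg, by
        have := congrFun hfg Φ
        simp only [hrs y _ Φ hΦ'] at this
        exact this.symm⟩
      rw [h1, h2]
    · intro g hg
      obtain ⟨k, ⟨hk1, hk2⟩, -⟩ := hL d Fl V X hd W s nb hs x (hN3 x hx) Φ (hxy Φ hΦ') (g Φ)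
      obtain ⟨k', -, hk'⟩ := hL d Fl V X hd W s nb hs y (hN3 y hy) Φ hΦ' (g Φ)
      refine ⟨k, hk1, ?_⟩
      have h1 := hk' _ ⟨hmaps x y k hxy hk1, by rw [hrs y k Φ hΦ', hk2]⟩
      have h2 := hk' g ⟨hg, rfl⟩
      exact h1.trans h2.symm
  have hloc : ∀ x ∈ N, ∃ ε > (0 : ℝ), ∀ y ∈ N, dist y x < ε → ∃ δ > (0 : ℝ), ∀ z ∈ N,
      dist z y < δ → ∀ f ∈ X.Sec s nb x, X.rs z (X.rs y f) = X.rs z f := by
    intro x hx
    refine ⟨1, one_pos, fun y hy _ => ?_⟩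
    obtain ⟨δ, hδ, h⟩ := hnear y
    refine ⟨δ, hδ, fun z hz hzy f _ => ?_⟩
    funext Φ
    by_cases hΦ : z ∈ X.cell Φ
    · rw [hrs z _ Φ hΦ, hrs z _ Φ hΦ, hrs y _ Φ (h Φ ⟨z, hΦ, Metric.mem_ball.mpr hzy⟩)]
    · rw [hrs1 z _ Φ hΦ, hrs1 z _ Φ hΦ]
  obtain ⟨g, ⟨hg, -⟩, -⟩ := hL d Fl V X hd W s nb hs o (hN3 o hoN) Φ₀ (interior_subset ho) 1
  obtain ⟨σ, -, hσ⟩ := hM d (Fl → W) N o hoN hstar (X.Sec s nb) X.rs hbij hloc g hg
  -- the value at the interior points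
  have hconst : ∀ Φ, ∀ x ∈ interior (X.cell Φ) ∩ N, ∀ y ∈ interior (X.cell Φ) ∩ N,
      σ x Φ = σ y Φ := by
    intro Φ x hx y hy
    refine IsPreconnected.induction₂ (hpre Φ).1 (fun a b => σ a Φ = σ b Φ) ?_ ?_ ?_ hx hy
    · intro z hz
      obtain ⟨ε, hε, h⟩ := (hσ z hz.2).2
      have hb : Metric.ball z ε ∈ nhdsWithin z (interior (X.cell Φ) ∩ N) :=
        mem_nhdsWithin_of_mem_nhds (Metric.ball_mem_nhds z hε)
      filter_upwards [hb, self_mem_nhdsWithin] with w hw1 hw2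
      rw [h w hw2.2 (Metric.mem_ball.mp hw1), hrs w _ Φ (interior_subset hw2.1)]
    · intro a b c _ _ _ h1 h2
      exact h1.trans h2
    · intro a b _ _ h1
      exact h1.symm
  choose pnt hpnt using fun Φ => (hpre Φ).2
  -- the value at all points of the cell
  have hval : ∀ Φ, ∀ x ∈ X.cell Φ ∩ N, σ x Φ = σ (pnt Φ) Φ := by
    intro Φ x hx
    obtain ⟨ε, hε, h⟩ := (hσ x hx.2).2
    obtain ⟨ε', hε', h'⟩ := Metric.isOpen_iff.mp hNo x hx.2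
    obtain ⟨y, hy, hyx⟩ := Metric.mem_closure_iff.mp (hcl Φ hx.1) (min ε ε') (lt_min hε hε')
    have hyN : y ∈ N := h' (Metric.mem_ball.mpr (by
      rw [dist_comm]
      exact lt_of_lt_of_le hyx (min_le_right _ _)))
    have h1 : σ y = X.rs y (σ x) := h y hyN (by
      rw [dist_comm]
      exact lt_of_lt_of_le hyx (min_le_left _ _))
    have h2 : σ y Φ = σ x Φ := by rw [h1, hrs y _ Φ (interior_subset hy)]
    rw [← h2]
    exact hconst Φ y ⟨hy, hyN⟩ _ (hpnt Φ)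
  refine ⟨fun Φ => σ (pnt Φ) Φ, fun Φ i => ?_⟩
  obtain ⟨x, ⟨hx1, hx2⟩, hx3⟩ := hwall Φ (nb i Φ) i (hs.nbadj i Φ)
  have h1 := (hσ x hx3).1.2 Φ i hx1 hx2
  show σ (pnt (nb i Φ)) (nb i Φ) = σ (pnt Φ) Φ * s i
  rw [← hval Φ x ⟨hx1, hx3⟩, ← hval (nb i Φ) x ⟨hx2, hx3⟩, h1]

end TL
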